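import Pool.Agent.EscQ.QDefs
import Pool.Agent.EscM.NDefs

/-!
Project EscQ: inner definitions (invariant tube, invariant potentials on the torus, classes of potentials).
-/

noncomputable section

namespace EscQ

open Filter Topology Set Esc EscG EscF.T EscM
open scoped ContDiff UniformConvergence

variable {m : ℕ} {k : ℕ∞}

/-- a uniform tube with an invariant cut-off -/
structure TubeQ (M : Mfd m) (ρ : ℝ) (χ : Vec m → ℝ) (R : Vec m → Vec m) : Prop extends
    TubeD M.toSub ρ χ R where
  invχ : ∀ P ∈ M.G, ∀ x, χ (P x) = χ x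

/-- invariant potentials on the torus which vanish on `N` together with their gradient -/
def YQ (M : Mfd m) (k : ℕ∞) : Set (EscF.T.Pot m k) :=
  {h | h ∈ YS M.toSub k ∧ ∀ P ∈ M.G, ∀ x t, h.toFun (P x, t) = h.toFun (x, t)}

/-- invariant smooth perturbations which do not depend on the normal variable near `N` -/
def MQ (M : Mfd m) (G : Vec m → ℝ → ℝ) : Prop := MCl M.toSub G ∧ ∀ P ∈ M.G, ∀ x t, G (P x) t = G x t

end EscQ
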