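import Pool.Agent.EscQ.PDefs
import Pool.Agent.EscM.N0
import Pool.Agent.EscM.N1

/-!
Module Q1 of project EscQ: invariance of the nearest point map, invariant tube.
-/

set_option autoImplicit false

noncomputable section

namespace EscQ

open Filter Topology Set Esc EscG EscF.T EscM
open scoped ContDiff UniformConvergence

variable {m : ℕ} {k : ℕ∞}

theorem Q1_inv (P : Vec m ≃ₗᵢ[ℝ] Vec m) (x : Vec m) : P⁻¹ (P x) = x := P.symm_apply_apply x

theorem Q1_inv' (P : Vec m ≃ₗᵢ[ℝ] Vec m) (x : Vec m) : P (P⁻¹ x) = x := P.apply_symm_apply x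

theorem mem_N_inv (M : Mfd m) {P : Vec m ≃ₗᵢ[ℝ] Vec m} (hP : P ∈ M.G) (x : Vec m) :
    P x ∈ M.N ↔ x ∈ M.N := by
  refine ⟨fun h => ?_, fun h => M.presN P hP x h⟩
  have := M.presN P⁻¹ (M.G.inv_mem hP) _ h
  rwa [Q1_inv] at this

theorem mem_U_inv (M : Mfd m) {P : Vec m ≃ₗᵢ[ℝ] Vec m} (hP : P ∈ M.G) (x : Vec m) :
    P x ∈ M.U ↔ x ∈ M.U := by
  refine ⟨fun h => ?_, fun h => M.presU P hP x h⟩
  have := M.presU P⁻¹ (M.G.inv_mem hP) _ h
  rwa [Q1_inv] at this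

/-- the nearest point map commutes with the group (uniqueness of the nearest point) -/
theorem r_inv (M : Mfd m) {P : Vec m ≃ₗᵢ[ℝ] Vec m} (hP : P ∈ M.G) {x : Vec m} (hx : x ∈ M.U) :
    M.r (P x) = P (M.r x) := by
  have hPx : P x ∈ M.U := (mem_U_inv M hP x).2 hx
  by_contra hne
  have h1 := M.nearest (P x) hPx (P (M.r x)) ((mem_N_inv M hP _).2 (M.mem x hx)) (fun h => hne h.symm)
  rw [P.dist_map] at h1
  have h2 : P⁻¹ (M.r (P x)) ∈ M.N := M.presN _ (M.G.inv_mem hP) _ (M.mem _ hPx)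
  have h3 : P⁻¹ (M.r (P x)) ≠ M.r x := fun h => hne (by rw [← h, Q1_inv'])
  have h4 := M.nearest x hx _ h2 h3
  have h5 : dist x (P⁻¹ (M.r (P x))) = dist (P x) (M.r (P x)) := by
    rw [← P.dist_map, Q1_inv']
  rw [h5] at h4
  exact lt_asymm h1 h4

theorem infDist_inv (M : Mfd m) {P : Vec m ≃ₗᵢ[ℝ] Vec m} (hP : P ∈ M.G) (x : Vec m) :
    Metric.infDist (P x) M.N = Metric.infDist x M.N := by
  have h1 : P '' M.N = M.N := by
    ext y
    constructor
    · rintro ⟨x, hx, rfl⟩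
      exact M.presN P hP x hx
    · intro hy
      exact ⟨P⁻¹ y, M.presN _ (M.G.inv_mem hP) y hy, Q1_inv' P y⟩
  have h2 := Metric.infDist_image (x := x) (t := M.N) P.isometry
  rwa [h1] at h2

/-- from `EscM.exists_tube` (module N0): take the mean of `χ ∘ P` over `P ∈ M.G` -/
theorem exists_tubeQ (M : Mfd m) (hne : M.N.Nonempty) :
    ∃ (ρ : ℝ) (χ : Vec m → ℝ) (R : Vec m → Vec m), TubeQ M ρ χ R := by
  obtain ⟨ρ, χ, R, hT⟩ := exists_tube M.toSub hne
  haveI : Finite M.G := M.finite.to_subtype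
  haveI : Fintype M.G := Fintype.ofFinite _
  have hcard : (0 : ℝ) < Fintype.card M.G := by
    have : 0 < Fintype.card M.G := Fintype.card_pos
    exact_mod_cast this
  have hsum1 : ∑ _P : M.G, (1 : ℝ) = Fintype.card M.G := by simp
  refine ⟨ρ, fun x => (∑ P : M.G, χ ((P : Vec m ≃ₗᵢ[ℝ] Vec m) x)) / Fintype.card M.G, R,
    ⟨⟨hT.ρ_pos, hT.ne, hT.tube, ?_, ?_, ?_, ?_, ?_, hT.sR, hT.perR, hT.R_eq⟩, ?_⟩⟩
  · refine ContDiff.div_const (ContDiff.sum fun P _ => ?_) _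
    exact hT.sχ.comp (P : Vec m ≃ₗᵢ[ℝ] Vec m).contDiff
  · intro n x
    congr 1
    refine Finset.sum_congr rfl fun P _ => ?_
    obtain ⟨n', hn'⟩ := M.lattice P.1 P.2 n
    rw [map_add, hn', hT.perχ]
  · intro x
    constructor
    · exact div_nonneg (Finset.sum_nonneg fun P _ => (hT.χ01 _).1) hcard.le
    · rw [div_le_one hcard, ← hsum1]
      exact Finset.sum_le_sum fun P _ => (hT.χ01 _).2
  · intro x hx
    rw [div_eq_one_iff_eq hcard.ne', ← hsum1]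
    refine Finset.sum_congr rfl fun P _ => hT.one _ ?_
    have := infDist_inv M P.2 x
    rw [this]
    exact hx
  · intro x hx
    rw [Finset.sum_eq_zero, zero_div]
    intro P _
    refine hT.zero _ ?_
    have := infDist_inv M P.2 x
    rw [this]
    exact hx
  · intro Q hQ x
    show (∑ P : M.G, χ ((P : Vec m ≃ₗᵢ[ℝ] Vec m) (Q x))) / _ = (∑ P : M.G, χ ((P : Vec m ≃ₗᵢ[ℝ] Vec m) x)) / _
    congr 1
    exact Fintype.sum_equiv (Equiv.mulRight ⟨Q, hQ⟩) _ _ fun P => rfl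

end EscQ
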