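import Pool.Agent.EscQ.PDefs
import Pool.Agent.EscQ.Q1
import Pool.Agent.EscM.N2

/-!
Project EscQ (MP_6acca1_an), module Q2: the `C^k` topology on the invariant potentials (helper52).
-/

noncomputable section

namespace EscQ

open Filter Topology Set Esc EscG EscF.T EscM Uniformity
open scoped ContDiff UniformConvergence

variable {m : ℕ} {k : ℕ∞}

theorem continuous_toPot (M : Mfd m) (k : ℕ∞) : Continuous (Pot.toPot : Pot M k → EscM.Pot M.toSub k) :=
  continuous_induced_dom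

theorem pot_nhdsQ {M : Mfd m} (f : Pot M k) {O : Set (Pot M k)} (hO : O ∈ 𝓝 f) :
    ∃ (r : ℕ) (K : Set (Vec m)) (ε : ℝ), 0 < ε ∧ (r : ℕ∞) ≤ k ∧ IsCompact K ∧ K ⊆ M.U ∧ ∀ f' : Pot M k,
      (∀ j ≤ r, ∀ x ∈ K, ∀ t, ‖iteratedFDeriv ℝ j f'.toFun (x, t) - iteratedFDeriv ℝ j f.toFun (x, t)‖ < ε) →
        f' ∈ O := by
  rw [nhds_induced, mem_comap] at hO
  obtain ⟨S, hS, hSO⟩ := hO
  obtain ⟨r, K, ε, hε, hr, hK, hKU, h⟩ := EscM.pot_nhds f.toPot hS
  exact ⟨r, K, ε, hε, hr, hK, hKU, fun f' hf' => hSO (h f'.toPot hf')⟩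

/-- limits of invariant potentials are invariant -/
theorem Q2_inv {M : Mfd m} (l : Filter (Pot M k)) [l.NeBot] {F : EscM.Pot M.toSub k}
    (hl : map Pot.toPot l ≤ 𝓝 F) : ∀ P ∈ M.G, ∀ x ∈ M.U, ∀ t, F.toFun (P x, t) = F.toFun (x, t) := by
  intro P hP x hx t
  have h1 : ∀ ρ : ℝ, 0 < ρ → |F.toFun (P x, t) - F.toFun (x, t)| ≤ 2 * ρ := by
    intro ρ hρ
    have h2 : {f' : EscM.Pot M.toSub k | ∀ q, |F.toFun q - f'.toFun q| ≤ ρ} ∈ map Pot.toPot l :=
      hl (EscM.pot_ball F hρ)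
    rw [mem_map] at h2
    obtain ⟨f, hf⟩ := l.nonempty_of_mem h2
    have hf' : ∀ q, |F.toFun q - f.toFun q| ≤ ρ := hf
    have h3 := hf' (P x, t)
    have h4 := hf' (x, t)
    rw [f.inv P hP x hx t] at h3
    rw [abs_le] at h3 h4 ⊢
    constructor <;> linarith [h3.1, h3.2, h4.1, h4.2]
  have h5 : |F.toFun (P x, t) - F.toFun (x, t)| ≤ 0 := by
    refine le_of_forall_pos_le_add fun ε hε => ?_
    have := h1 (ε / 2) (half_pos hε)
    linarith
  exact sub_eq_zero.1 (abs_eq_zero.1 (le_antisymm h5 (abs_nonneg _)))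

theorem baireQ (M : Mfd m) (k : ℕ∞) : BaireSpace (Pot M k) := by
  let U0 : UniformSpace (EscM.Pot M.toSub k) := UniformSpace.comap jet inferInstance
  let U : UniformSpace (Pot M k) := UniformSpace.comap Pot.toPot U0
  obtain ⟨t, ht, htc, hte⟩ := EscM.N2_exists_exhaustion M.toSub
  have hu : ∀ j : {j : ℕ // (j : ℕ∞) ≤ k}, (𝓤 (Dom M.toSub →ᵤ[slabs M.toSub]
      ContinuousMultilinearMap ℝ (fun _ : Fin j.1 => Vec m × ℝ) ℝ)).IsCountablyGenerated := by
    intro j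
    refine UniformOnFun.isCountablyGenerated_uniformity (slabs M.toSub)
      (t := fun i => EscM.N2_slab M.toSub (t i))
      (fun i => EscM.N2_mem_slabs (htc i).1 (htc i).2)
      (fun i i' h q hq => ht h hq) ?_
    rintro _ ⟨K, hc, hK, rfl⟩
    obtain ⟨i, hi⟩ := hte K hc hK
    exact ⟨i, fun q hq => hi hq⟩
  have h0 : (𝓤 (EscM.Pot M.toSub k)).IsCountablyGenerated := by
    have : 𝓤 (EscM.Pot M.toSub k) =
      Filter.comap (fun q : EscM.Pot M.toSub k × EscM.Pot M.toSub k => (jet q.1, jet q.2)) (𝓤 _) := rfl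
    rw [this]
    infer_instance
  have : (𝓤 (Pot M k)).IsCountablyGenerated := by
    have : 𝓤 (Pot M k) = Filter.comap (fun q : Pot M k × Pot M k => (q.1.toPot, q.2.toPot))
      (𝓤 (EscM.Pot M.toSub k)) := rfl
    rw [this]
    infer_instance
  have : CompleteSpace (Pot M k) := by
    refine ⟨fun {l} hl => ?_⟩
    have := hl.1
    have h1 : Cauchy (map (Pot.toPot : Pot M k → EscM.Pot M.toSub k) l) := hl.map uniformContinuous_comap
    have h2 : Cauchy (map (jet : EscM.Pot M.toSub k → _) (map Pot.toPot l)) :=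
      h1.map uniformContinuous_comap
    obtain ⟨Ψ, hΨ⟩ := CompleteSpace.complete h2
    obtain ⟨F, hF⟩ := EscM.N2_pot_complete M.toSub k (map Pot.toPot l) Ψ hΨ
    refine ⟨⟨F, Q2_inv l hF⟩, ?_⟩
    rw [nhds_induced, ← map_le_iff_le_comap]
    exact hF
  exact (inferInstance : BaireSpace (Pot M k))

end EscQ
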