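import Pool.Agent.EscQ.PDefs
import Pool.Agent.EscM.N3a

/-!
Project EscQ, module Q3: the set of invariant potentials on the torus which vanish on `N` together with
their gradient is closed, and a Baire space (helper46).
-/

noncomputable section

namespace EscQ

open Filter Topology Set Esc EscG EscF.T EscM
open scoped ContDiff UniformConvergence

variable {m : ℕ} {k : ℕ∞}

theorem isClosed_YQ (M : Mfd m) {k : ℕ∞} (hk : 2 ≤ k) : IsClosed (YQ M k) := by
  have h0 : ((0 : ℕ) : ℕ∞) ≤ k := by simp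
  have he : YQ M k = YS M.toSub k ∩ ⋂ P ∈ M.G, ⋂ x : Vec m, ⋂ t : ℝ,
      {h : EscF.T.Pot m k | iteratedFDeriv ℝ 0 h.toFun (P x, t) (fun _ => 0) =
        iteratedFDeriv ℝ 0 h.toFun (x, t) (fun _ => 0)} := by
    ext h
    simp only [YQ, Set.mem_ofPred_eq, mem_iInter, mem_inter_iff, iteratedFDeriv_zero_apply]
  rw [he]
  refine (isClosed_YS M.toSub hk).inter (isClosed_iInter fun P => isClosed_iInter fun _ =>
    isClosed_iInter fun x => isClosed_iInter fun t => ?_)
  exact isClosed_eq (N3a_cont_apply (k := k) ⟨0, h0⟩ (P x, t) _)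
    (N3a_cont_apply (k := k) ⟨0, h0⟩ (x, t) _)

theorem baireYQ (M : Mfd m) {k : ℕ∞} (hk : 2 ≤ k) : BaireSpace (YQ M k) := by
  have h1 := N3a_complete m k
  have h2 : IsClosedEmbedding (Subtype.val : YQ M k → EscF.T.Pot m k) :=
    (isClosed_YQ M hk).isClosedEmbedding_subtypeVal
  have := h2.IsCompletelyPseudoMetrizableSpace
  infer_instance

end EscQ
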