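import Pool.Agent.EscQ.PDefs
import Pool.Agent.EscQ.Q1
import Pool.Agent.EscQ.Q2
import Pool.Agent.EscM.N5a

/-!
Project EscQ (MP_6acca1_an), module Q5a: the extended potentials depend continuously on the pair of potentials.
-/

noncomputable section

namespace EscQ

open Filter Topology Set Esc EscG EscF.T EscM
open scoped ContDiff UniformConvergence

variable {m : ℕ} {k : ℕ∞}

/-- from `EscM.fh_ball` and continuity of `(f, h) ↦ (f.toPot, h)` -/
theorem fh_ballQ {M : Mfd m} {ρ : ℝ} {χ : Vec m → ℝ} {R : Vec m → Vec m} (hT : TubeQ M ρ χ R)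
    (f : Pot M k) (h : YQ M k) {e : ℝ} (he : 0 < e) :
    {p : Pot M k × YQ M k | ∀ x t, |fh χ f.toPot h.1 x t - fh χ p.1.toPot p.2.1 x t| ≤ e} ∈ 𝓝 (f, h) := by
  have hsub : YQ M k ⊆ YS M.toSub k := fun _ hh => hh.1
  have hc : Continuous (fun p : Pot M k × YQ M k => (p.1.toPot, Set.inclusion hsub p.2)) :=
    ((continuous_toPot M k).comp continuous_fst).prodMk ((continuous_inclusion hsub).comp continuous_snd)
  have hb := fh_ball hT.toTubeD f.toPot (Set.inclusion hsub h) he
  exact (hc.continuousAt (x := (f, h))).preimage_mem_nhds hb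

end EscQ
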