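import Pool.Agent.EscQ.PDefs
import Pool.Agent.EscQ.Q1
import Pool.Agent.EscQ.Q2
import Pool.Agent.EscM.N5b

/-!
Project EscQ, module Q5b: small invariant perturbations in the class `MQ` are small perturbations in the product of
the space of potentials on the quotient manifold and the space `YQ`. The pair given by `EscM.reach` is determined by
the potential `fh`, hence it is invariant.
-/

noncomputable section

namespace EscQ

open Filter Topology Set Esc EscG EscF.T EscM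
open scoped ContDiff UniformConvergence

variable {m : ℕ} {k : ℕ∞}

/-- the inclusion of the invariant potentials on the torus -/
def Q5b_incl (M : Mfd m) (k : ℕ∞) : YQ M k → YS M.toSub k := Set.inclusion fun _ hh => hh.1

theorem Q5b_inducing (M : Mfd m) (k : ℕ∞) :
    Topology.IsInducing (Prod.map (Pot.toPot : Pot M k → EscM.Pot M.toSub k) (Q5b_incl M k)) :=
  Topology.IsInducing.prodMap ⟨rfl⟩ (Topology.IsEmbedding.inclusion (fun _ hh => hh.1)).isInducing

/-- an invariant potential is invariant everywhere -/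
theorem Q5b_inv {M : Mfd m} (f : Pot M k) {P : Vec m ≃ₗᵢ[ℝ] Vec m} (hP : P ∈ M.G) (x : Vec m) (t : ℝ) :
    f.toPot.toFun (P x, t) = f.toPot.toFun (x, t) := by
  by_cases hx : x ∈ M.U
  · exact f.inv P hP x hx t
  · rw [f.toPot.out x hx t, f.toPot.out (P x) (fun h => hx ((mem_U_inv M hP x).1 h)) t]

/-- the potential on the torus is invariant -/
theorem Q5b_fh_inv {M : Mfd m} {ρ : ℝ} {χ : Vec m → ℝ} {R : Vec m → Vec m} (hT : TubeQ M ρ χ R)
    (f : Pot M k) (h : YQ M k) {P : Vec m ≃ₗᵢ[ℝ] Vec m} (hP : P ∈ M.G) (x : Vec m) (t : ℝ) :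
    fh χ f.toPot h.1 (P x) t = fh χ f.toPot h.1 x t := by
  simp only [fh, extf]
  rw [hT.invχ P hP x, Q5b_inv f hP x t, h.2.2 P hP x t]

/-- the first component is determined by the potential on the torus -/
theorem Q5b_fst {M : Mfd m} {ρ : ℝ} {χ : Vec m → ℝ} {R : Vec m → Vec m} (hT : TubeQ M ρ χ R)
    (f : EscM.Pot M.toSub k) (h : YS M.toSub k) {x : Vec m} (hx : x ∈ M.N) (t : ℝ) :
    f.toFun (x, t) = fh χ f h.1 x t := by
  have h1 : χ x = 1 := hT.one x (by
    rw [Metric.infDist_zero_of_mem hx]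
    have := hT.ρ_pos
    linarith)
  simp only [fh, extf]
  rw [h1, (h.2 x hx t).1]
  ring

/-- port of `EscM.reach` (module N5b): all functions constructed there are invariant -/
theorem reachQ {M : Mfd m} {ρ : ℝ} {χ : Vec m → ℝ} {R : Vec m → Vec m} (hT : TubeQ M ρ χ R)
    {O : Set (Pot M k × YQ M k)} (hO : IsOpen O) {f : Pot M k} {h : YQ M k} (hf : (f, h) ∈ O) :
    ∃ (N : SmNorm (bas m)) (e : ℝ), 0 < e ∧ ∀ G, MQ M G → N.nm G < e →
      ∃ p ∈ O, ∀ x t, fh χ p.1.toPot p.2.1 x t = fh χ f.toPot h.1 x t + G x t := by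
  obtain ⟨O', hO', rfl⟩ := (Q5b_inducing M k).isOpen_iff.1 hO
  have hf' : (f.toPot, Q5b_incl M k h) ∈ O' := hf
  obtain ⟨N, e, he, hN⟩ := reach hT.toTubeD hO' hf'
  refine ⟨N, e, he, fun G hG hGe => ?_⟩
  obtain ⟨p, hp, hpe⟩ := hN G hG.1 hGe
  have hinv : ∀ P ∈ M.G, ∀ x t, fh χ p.1 p.2.1 (P x) t = fh χ p.1 p.2.1 x t := by
    intro P hP x t
    rw [hpe (P x) t, hpe x t, hG.2 P hP x t]
    exact congrArg (· + G x t) (Q5b_fh_inv hT f h hP x t)
  have h1 : ∀ P ∈ M.G, ∀ x ∈ M.U, ∀ t, p.1.toFun (P x, t) = p.1.toFun (x, t) := by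
    intro P hP x hx t
    have hx' : P x ∈ M.U := (mem_U_inv M hP x).2 hx
    have hr : M.r x ∈ M.N := M.mem x hx
    rw [p.1.ext (P x) hx' t, p.1.ext x hx t, r_inv M hP hx,
      Q5b_fst hT p.1 p.2 ((mem_N_inv M hP _).2 hr) t, Q5b_fst hT p.1 p.2 hr t, hinv P hP]
  have h2 : ∀ P ∈ M.G, ∀ x t, p.1.toFun (P x, t) = p.1.toFun (x, t) := fun P hP x t =>
    Q5b_inv (M := M) (k := k) ⟨p.1, h1⟩ hP x t
  have h3 : ∀ P ∈ M.G, ∀ x t, p.2.1.toFun (P x, t) = p.2.1.toFun (x, t) := by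
    intro P hP x t
    have h4 := hinv P hP x t
    simp only [fh, extf] at h4
    rw [hT.invχ P hP x, h2 P hP x t] at h4
    exact add_left_cancel h4
  exact ⟨(⟨p.1, h1⟩, ⟨p.2.1, p.2.2, h3⟩), hp, hpe⟩

end EscQ
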