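import Pool.Agent.EscQ.PDefs
import Pool.Agent.EscQ.Q1
import Pool.Agent.EscQ.Q3
import Pool.Agent.EscM.N6

/-!
Project EscQ, module Q6 (helper21): the potentials which grow in the normal directions form an open nonempty set.
-/

noncomputable section

namespace EscQ

open Filter Topology Set Esc EscG EscF.T EscM
open scoped ContDiff UniformConvergence

variable {m : ℕ} {k : ℕ∞}

/-- invariant potentials as elements of the larger space -/
def Q6_incl (M : Mfd m) (k : ℕ∞) (h : YQ M k) : YS M.toSub k := ⟨h.1, h.2.1⟩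

theorem Q6_incl_cont (M : Mfd m) (k : ℕ∞) : Continuous (Q6_incl M k) :=
  Continuous.subtype_mk continuous_subtype_val _

theorem VC_openQ (hk : 2 ≤ k) {M : Mfd m} {ρ : ℝ} {χ : Vec m → ℝ} {R : Vec m → Vec m}
    (hT : TubeQ M ρ χ R) : IsOpen {h : YQ M k | VC M.toSub ρ (fun x t => h.1.toFun (x, t))} :=
  (VC_open hk hT.toTubeD).preimage (Q6_incl_cont M k)

/-- the elements of the group as a finite set -/
def Q6_S (M : Mfd m) : Finset (Vec m ≃ₗᵢ[ℝ] Vec m) := M.finite.toFinset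

theorem Q6_mem {M : Mfd m} {P : Vec m ≃ₗᵢ[ℝ] Vec m} : P ∈ Q6_S M ↔ P ∈ M.G := by
  unfold Q6_S
  rw [Set.Finite.mem_toFinset, SetLike.mem_coe]

theorem Q6_card (M : Mfd m) : (0 : ℝ) < ((Q6_S M).card : ℝ) := by
  have h : (1 : Vec m ≃ₗᵢ[ℝ] Vec m) ∈ Q6_S M := Q6_mem.2 (one_mem _)
  exact_mod_cast Finset.card_pos.2 ⟨_, h⟩

/-- the mean over the group -/
def Q6_avg (M : Mfd m) (f : Fun m) : Fun m :=
  fun q => ((Q6_S M).card : ℝ)⁻¹ * ∑ P ∈ Q6_S M, f (P q.1, q.2)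

theorem Q6_smooth (M : Mfd m) {f : Fun m} {k : ℕ∞} (hf : ContDiff ℝ k f) :
    ContDiff ℝ k (Q6_avg M f) := by
  unfold Q6_avg
  refine contDiff_const.mul (ContDiff.sum fun P _ => ?_)
  exact hf.comp ((P.contDiff.comp contDiff_fst).prodMk contDiff_snd)

theorem Q6_per (M : Mfd m) {f : Fun m} (hf : IsPeriodic f) : IsPeriodic (Q6_avg M f) := by
  intro n l x t
  unfold Q6_avg
  congr 1
  refine Finset.sum_congr rfl fun P hP => ?_
  obtain ⟨n', hn'⟩ := M.lattice P (Q6_mem.1 hP) n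
  show f (P (x + vz n), t + l) = f (P x, t)
  rw [map_add, hn', hf n' l]

theorem Q6_inv (M : Mfd m) (f : Fun m) {P : Vec m ≃ₗᵢ[ℝ] Vec m} (hP : P ∈ M.G) (x : Vec m) (t : ℝ) :
    Q6_avg M f (P x, t) = Q6_avg M f (x, t) := by
  unfold Q6_avg
  congr 1
  refine Finset.sum_equiv (Equiv.mulRight P) (fun P' => ?_) (fun P' _ => ?_)
  · rw [Q6_mem, Q6_mem, Equiv.coe_mulRight]
    exact ⟨fun h => mul_mem h hP, fun h => by
      have h1 := mul_mem h (inv_mem hP)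
      rwa [mul_inv_cancel_right] at h1⟩
  · rfl

theorem Q6_fderiv (M : Mfd m) {f : Fun m} (hf : Differentiable ℝ f) (x v : Vec m) (t : ℝ) :
    fderiv ℝ (fun y => Q6_avg M f (y, t)) x v =
      ((Q6_S M).card : ℝ)⁻¹ * ∑ P ∈ Q6_S M, fderiv ℝ (fun y => f (y, t)) (P x) (P v) := by
  have h0 : ∀ P : Vec m ≃ₗᵢ[ℝ] Vec m, HasFDerivAt (fun y => f (P y, t))
      ((fderiv ℝ (fun y => f (y, t)) (P x)).comp
        (P.toContinuousLinearEquiv : Vec m →L[ℝ] Vec m)) x := by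
    intro P
    have h1 : DifferentiableAt ℝ (fun y => f (y, t)) (P x) := by
      have h2 : Differentiable ℝ (fun y : Vec m => f (y, t)) :=
        hf.comp (differentiable_id.prodMk (differentiable_const t))
      exact h2 _
    exact h1.hasFDerivAt.comp x P.toContinuousLinearEquiv.hasFDerivAt
  have h3 : HasFDerivAt (fun y => ∑ P ∈ Q6_S M, f (P y, t))
      (∑ P ∈ Q6_S M, (fderiv ℝ (fun y => f (y, t)) (P x)).comp
        (P.toContinuousLinearEquiv : Vec m →L[ℝ] Vec m)) x := by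
    have h4 := HasFDerivAt.fun_sum (u := Q6_S M) (fun P _ => h0 P)
    exact h4
  have h5 := h3.const_mul ((Q6_S M).card : ℝ)⁻¹
  have h6 : fderiv ℝ (fun y => Q6_avg M f (y, t)) x = _ := h5.fderiv
  rw [h6, ContinuousLinearMap.smul_apply, smul_eq_mul, ContinuousLinearMap.sum_apply]
  rfl

theorem VC_neQ (k : ℕ∞) {M : Mfd m} {ρ : ℝ} {χ : Vec m → ℝ} {R : Vec m → Vec m}
    (hT : TubeQ M ρ χ R) : {h : YQ M k | VC M.toSub ρ (fun x t => h.1.toFun (x, t))}.Nonempty := by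
  obtain ⟨h, ε, hε, hv⟩ := VC_ne (⊤ : ℕ∞) hT.toTubeD
  have hsm : ContDiff ℝ (⊤ : ℕ∞) h.1.toFun := h.1.contDiff
  have hd : Differentiable ℝ h.1.toFun := hsm.differentiable (by simp)
  let g : EscF.T.Pot m k :=
    { toFun := Q6_avg M h.1.toFun
      contDiff := Q6_smooth M (hsm.of_le (by exact_mod_cast le_top))
      periodic := Q6_per M h.1.periodic }
  have hN : ∀ x ∈ M.N, ∀ P ∈ Q6_S M, P x ∈ M.N := fun x hx P hP => M.presN P (Q6_mem.1 hP) x hx
  have hgY : g ∈ YQ M k := by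
    refine ⟨fun x hx t => ⟨?_, ?_⟩, fun P hP x t => Q6_inv M _ hP x t⟩
    · show ((Q6_S M).card : ℝ)⁻¹ * ∑ P ∈ Q6_S M, h.1.toFun (P x, t) = 0
      rw [Finset.sum_eq_zero fun P hP => (h.2 (P x) (hN x hx P hP) t).1, mul_zero]
    · show fderiv ℝ (fun y => Q6_avg M h.1.toFun (y, t)) x = 0
      ext v
      rw [Q6_fderiv M hd, Finset.sum_eq_zero, mul_zero]
      · rfl
      · intro P hP
        rw [(h.2 (P x) (hN x hx P hP) t).2]
        rfl
  refine ⟨⟨g, hgY⟩, ε, hε, fun x hx t => ?_⟩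
  show ε * ‖x - M.r x‖ ^ 2 ≤ fderiv ℝ (fun y => Q6_avg M h.1.toFun (y, t)) x (x - M.r x)
  rw [Q6_fderiv M hd]
  have hU : x ∈ M.U := hT.tube x (by have := hT.ρ_pos; linarith)
  have h1 : ∀ P ∈ Q6_S M, ε * ‖x - M.r x‖ ^ 2 ≤
      fderiv ℝ (fun y => h.1.toFun (y, t)) (P x) (P (x - M.r x)) := by
    intro P hP
    have hP' := Q6_mem.1 hP
    have h2 := hv (P x) (by rw [infDist_inv M hP']; exact hx) t
    rw [r_inv M hP' hU, ← map_sub, LinearIsometryEquiv.norm_map] at h2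
    exact h2
  have h3 := Finset.card_nsmul_le_sum (Q6_S M) _ _ h1
  rw [nsmul_eq_mul] at h3
  have h4 := mul_le_mul_of_nonneg_left h3 (inv_nonneg.2 (Q6_card M).le)
  rwa [← mul_assoc, inv_mul_cancel₀ (Q6_card M).ne', one_mul] at h4

end EscQ
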