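import Pool.Agent.EscQ.PDefs
import Pool.Agent.EscQ.Q2
import Pool.Agent.EscQ.Q3
import Pool.Agent.EscQ.Q5a
import Pool.Agent.EscQ.Q5b
import Pool.Agent.EscQ.Q6
import Pool.Agent.EscM.N3b
import Pool.Agent.EscM.N4
import Pool.Agent.EscM.N7

/-!
Project EscQ, module Q7: the residual theorem on the quotient (Kuratowski-Ulam and the stages).
-/

noncomputable section

namespace EscQ

open Filter Topology Set Esc EscG EscF.T EscM
open scoped ContDiff UniformConvergence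

variable {m : ℕ} {k : ℕ∞}

/-- conditions on the potential which are open in the sup norm are open in the product -/
theorem Q7_open (hk : 2 ≤ k) {M : Mfd m} {ρ : ℝ} {χ : Vec m → ℝ} {R : Vec m → Vec m}
    (hT : TubeQ M ρ χ R) (S : (Vec m → ℝ → ℝ) → Prop)
    (hopen : ∀ f, Pt (bas m) f → S f →
      ∃ r > 0, ∀ f' : Vec m → ℝ → ℝ, Pt (bas m) f' → (∀ x t, |f x t - f' x t| ≤ r) → S f') :
    IsOpen {p : Pot M k × YQ M k | S (fh χ p.1.toPot p.2.1)} := by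
  rw [isOpen_iff_mem_nhds]
  rintro ⟨f, h⟩ hp
  obtain ⟨r, hr, hS⟩ := hopen _ (fh_pt hk hT.toTubeD f.toPot h.1) hp
  exact mem_of_superset (fh_ballQ hT f h hr) fun p hp' =>
    hS _ (fh_pt hk hT.toTubeD p.1.toPot p.2.1) hp'

theorem residual_Q (hk : 2 ≤ k) {M : Mfd m} {ρ : ℝ} {χ : Vec m → ℝ} {R : Vec m → Vec m}
    (hT : TubeQ M ρ χ R) (S : ℕ → (Vec m → ℝ → ℝ) → Prop) (Es : (Vec m → ℝ → ℝ) → Prop)
    (hopen : ∀ q f, Pt (bas m) f → S q f →
      ∃ r > 0, ∀ f', Pt (bas m) f' → (∀ x t, |f x t - f' x t| ≤ r) → S q f')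
    (hdense : ∀ a : ℕ, ∃ q0 : ℕ, ∀ (N : SmNorm (bas m)) (q : ℕ), q0 ≤ q → ∀ f, Pt (bas m) f → Good a f →
      ∀ ε : ℝ, 0 < ε → ∃ G, MQ M G ∧ N.nm G ≤ ε ∧ S q (fun x t => f x t + G x t))
    (hesc : ∀ a : ℕ, ∃ q0 : ℕ, ∀ q1 : ℕ, q0 ≤ q1 → ∀ f, Pt (bas m) f → Good a f →
      (∀ q : ℕ, q1 ≤ q → S q f) → Es f) :
    {f : Pot M k | ∃ h : YQ M k, VC M.toSub ρ (fh χ f.toPot h.1) ∧ Es (fh χ f.toPot h.1)} ∈
      residual (Pot M k) := by
  have := second_pot m k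
  have := baireYQ M hk
  choose a ha using hdense
  choose b hb using hesc
  set W : ℕ × ℕ → Set (Pot M k × YQ M k) := fun i =>
    {p | S (a i.1 + i.2) (fh χ p.1.toPot p.2.1)} ∪ {p | ¬ Good (i.1 : ℝ) (fh χ p.1.toPot p.2.1)}
    with hW
  have hWo : ∀ i, IsOpen (W i) := by
    intro i
    refine IsOpen.union ?_ ?_
    · exact Q7_open hk hT (fun g => S (a i.1 + i.2) g) fun f hf hS => hopen _ f hf hS
    · exact Q7_open hk hT (fun g => ¬ Good (i.1 : ℝ) g) fun f hf hS =>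
        N7_good_closed (Nat.cast_nonneg _) hf hS
  have hWd : ∀ i, Dense (W i) := by
    intro i
    rw [dense_iff_inter_open]
    rintro O hO ⟨⟨f, h⟩, hf⟩
    by_cases hG : Good (i.1 : ℝ) (fh χ f.toPot h.1)
    · obtain ⟨N, e, he, hr⟩ := reachQ hT hO hf
      obtain ⟨G, h1, h2, h3⟩ := ha i.1 N (a i.1 + i.2) (Nat.le_add_right _ _) _
        (fh_pt hk hT.toTubeD f.toPot h.1) hG (e / 2) (by positivity)
      obtain ⟨p, hp, hp'⟩ := hr G h1 (by linarith)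
      refine ⟨p, hp, Or.inl ?_⟩
      have e1 : fh χ p.1.toPot p.2.1 = fun x t => fh χ f.toPot h.1 x t + G x t := by
        funext x t
        exact hp' x t
      change S (a i.1 + i.2) (fh χ p.1.toPot p.2.1)
      rw [e1]
      exact h3
    · exact ⟨(f, h), hf, Or.inr hG⟩
  have hV := VC_openQ (k := k) hk hT
  have hVne := VC_neQ k hT
  refine mem_of_superset (KU hWo hWd hV hVne) ?_
  rintro f ⟨h, hv, hall⟩
  refine ⟨h, VC_fh hk hT.toTubeD f.toPot ⟨h.1, h.2.1⟩ hv, ?_⟩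
  obtain ⟨C, hC, hGC⟩ := Pt.good (fh_pt hk hT.toTubeD f.toPot h.1)
  obtain ⟨c, hc⟩ := exists_nat_ge C
  have hGm : Good (c : ℝ) (fh χ f.toPot h.1) :=
    ⟨Nat.cast_nonneg c, hGC.cont, fun x t => (hGC.bd x t).trans hc,
      fun x x' t => (hGC.lipx x x' t).trans (mul_le_mul_of_nonneg_right hc (norm_nonneg _)),
      fun x t t' => (hGC.lipt x t t').trans (mul_le_mul_of_nonneg_right hc (abs_nonneg _))⟩
  have hS : ∀ q : ℕ, a c ≤ q → S q (fh χ f.toPot h.1) := by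
    intro q hq
    obtain ⟨r, rfl⟩ := Nat.exists_eq_add_of_le hq
    rcases hall (c, r) with h | h
    · exact h
    · exact absurd hGm h
  exact hb c (max (a c) (b c)) (le_max_right _ _) _ (fh_pt hk hT.toTubeD f.toPot h.1) hGm
    fun q hq => hS q ((le_max_left _ _).trans hq)

end EscQ
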