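import Pool.Agent.EscQ.PDefs
import Pool.Agent.EscQ.Q1
import Pool.Agent.EscT.TDefs

/-!
Module Q8 of project EscQ: the class of potentials. The bumps are `1 - ∏ P ∈ G, (1 - g0 (P x))` for a bump `g0` of
the class `S0`. If `N` is empty, the existence of the bumps of `S0` forces `r x ∈ x + ℤᵐ` for all `x`.
-/

noncomputable section

namespace EscQ

open Filter Topology Set Esc EscG EscF.T EscM
open scoped ContDiff UniformConvergence

variable {m : ℕ} {k : ℕ∞}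

theorem Q8_span {w : Vec m} :
    w ∈ Submodule.span ℤ (Set.range (bas m)) ↔ ∃ n : Fin m → ℤ, w = vz n := by
  rw [Submodule.mem_span_range_iff_exists_fun]
  constructor
  · rintro ⟨n, rfl⟩
    exact ⟨n, (N1_vz_sum n).symm⟩
  · rintro ⟨n, rfl⟩
    exact ⟨n, (N1_vz_sum n).symm⟩

/-- the symmetrised bump -/
def Q8_g (M : Mfd m) (g0 : Vec m → ℝ) (x : Vec m) : ℝ := 1 - ∏ P ∈ M.finite.toFinset, (1 - g0 (P x))

theorem Q8_mem (M : Mfd m) {P : Vec m ≃ₗᵢ[ℝ] Vec m} : P ∈ M.finite.toFinset ↔ P ∈ M.G := by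
  rw [Set.Finite.mem_toFinset]
  exact Iff.rfl

theorem Q8_smooth (M : Mfd m) {g0 : Vec m → ℝ} (h : ContDiff ℝ ∞ g0) : ContDiff ℝ ∞ (Q8_g M g0) := by
  unfold Q8_g
  exact contDiff_const.sub
    (contDiff_prod fun P _ => contDiff_const.sub (h.comp P.contDiff))

theorem Q8_per (M : Mfd m) {g0 : Vec m → ℝ} (h : ∀ (n : Fin m → ℤ) x, g0 (x + vz n) = g0 x)
    (n : Fin m → ℤ) (x : Vec m) : Q8_g M g0 (x + vz n) = Q8_g M g0 x := by
  unfold Q8_g
  congr 1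
  refine Finset.prod_congr rfl fun P hP => ?_
  obtain ⟨n', hn'⟩ := M.lattice P ((Q8_mem M).1 hP) n
  rw [map_add, hn', h]

theorem Q8_inv (M : Mfd m) (g0 : Vec m → ℝ) {Q : Vec m ≃ₗᵢ[ℝ] Vec m} (hQ : Q ∈ M.G) (x : Vec m) :
    Q8_g M g0 (Q x) = Q8_g M g0 x := by
  unfold Q8_g
  congr 1
  refine Finset.prod_nbij' (fun P => P * Q) (fun P => P * Q⁻¹) ?_ ?_ ?_ ?_ ?_
  · intro P hP
    exact (Q8_mem M).2 (M.G.mul_mem ((Q8_mem M).1 hP) hQ)
  · intro P hP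
    exact (Q8_mem M).2 (M.G.mul_mem ((Q8_mem M).1 hP) (M.G.inv_mem hQ))
  · intro P _
    exact mul_inv_cancel_right P Q
  · intro P _
    exact inv_mul_cancel_right P Q
  · intro P _
    rfl

theorem Q8_01 (M : Mfd m) {g0 : Vec m → ℝ} (h : ∀ x, 0 ≤ g0 x ∧ g0 x ≤ 1) (x : Vec m) :
    0 ≤ Q8_g M g0 x ∧ Q8_g M g0 x ≤ 1 := by
  unfold Q8_g
  have h1 : 0 ≤ ∏ P ∈ M.finite.toFinset, (1 - g0 (P x)) :=
    Finset.prod_nonneg fun P _ => by linarith [(h (P x)).2]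
  have h2 : ∏ P ∈ M.finite.toFinset, (1 - g0 (P x)) ≤ 1 :=
    Finset.prod_le_one (fun P _ => by linarith [(h (P x)).2]) fun P _ => by linarith [(h (P x)).1]
  constructor <;> linarith

theorem Q8_one (M : Mfd m) {g0 : Vec m → ℝ} {P : Vec m ≃ₗᵢ[ℝ] Vec m} (hP : P ∈ M.finite.toFinset)
    {x : Vec m} (h : g0 (P x) = 1) : Q8_g M g0 x = 1 := by
  unfold Q8_g
  rw [Finset.prod_eq_zero hP (by rw [h, sub_self]), sub_zero]

theorem Q8_zero (M : Mfd m) {g0 : Vec m → ℝ} {x : Vec m}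
    (h : ∀ P ∈ M.finite.toFinset, g0 (P x) = 0) : Q8_g M g0 x = 0 := by
  unfold Q8_g
  rw [Finset.prod_eq_one fun P hP => by rw [h P hP, sub_zero], sub_self]

/-- if `N` is empty, `r x` is congruent to `x` modulo the lattice (up to any error) -/
theorem Q8_empty (M : Mfd m) (S0 : EscK.SCl (bas m)) (h0 : ∀ G, S0.mem G ↔ MCl M.toSub G)
    (hN : M.N = ∅) (x : Vec m) {e : ℝ} (he : 0 < e) : ∃ n : Fin m → ℤ, ‖M.r x + vz n - x‖ < e := by
  obtain ⟨r0, hr0, hb⟩ := S0.bump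
  have hr : 0 < min r0 (e / 3) := lt_min hr0 (by positivity)
  obtain ⟨g0, -, -, -, h1, h2, h3⟩ := hb (min r0 (e / 3)) hr (min_le_left _ _) x
  have h4 : g0 x = 1 := by
    apply h1
    refine ⟨0, Submodule.zero_mem _, ?_⟩
    rw [add_zero, sub_self, norm_zero]
    linarith
  have h5 := (h0 _).1 (h3 (fun _ => 1) contDiff_const fun _ => rfl)
  obtain ⟨-, δ, hδ, h6⟩ := h5
  have h7 : Metric.infDist x M.N < δ := by
    rw [hN, Metric.infDist_empty]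
    exact hδ
  have h8 : (1 : ℝ) * g0 x = 1 * g0 (M.r x) := h6 x h7 0
  rw [one_mul, one_mul, h4] at h8
  by_contra hcon
  push Not at hcon
  have h9 : g0 (M.r x) = 0 := by
    apply h2
    intro v hv
    obtain ⟨n, rfl⟩ := Q8_span.1 hv
    have h10 := hcon n
    have h11 : min r0 (e / 3) ≤ e / 3 := min_le_right _ _
    linarith
  rw [h9] at h8
  exact one_ne_zero h8

/-- near `N` the symmetrised bump does not depend on the normal variable -/
theorem Q8_near (M : Mfd m) (S0 : EscK.SCl (bas m)) (h0 : ∀ G, S0.mem G ↔ MCl M.toSub G)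
    {g0 : Vec m → ℝ} (hs : ContDiff ℝ ∞ g0) (hp : ∀ (n : Fin m → ℤ) x, g0 (x + vz n) = g0 x)
    (hm : MCl M.toSub (fun x _ => 1 * g0 x)) :
    ∃ δ : ℝ, 0 < δ ∧ ∀ x, Metric.infDist x M.N < δ → Q8_g M g0 x = Q8_g M g0 (M.r x) := by
  rcases M.N.eq_empty_or_nonempty with hN | hN
  · refine ⟨1, one_pos, fun x _ => ?_⟩
    have hc : Continuous (Q8_g M g0) := (Q8_smooth M hs).continuous
    by_contra hne
    have h1 : 0 < |Q8_g M g0 (M.r x) - Q8_g M g0 x| :=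
      abs_pos.2 (sub_ne_zero.2 fun h => hne h.symm)
    obtain ⟨e, he, h2⟩ := Metric.continuousAt_iff.1 hc.continuousAt _ h1
    obtain ⟨n, hn⟩ := Q8_empty M S0 h0 hN x he
    have h3 : dist (M.r x + vz n) x < e := by
      rw [dist_eq_norm]
      exact hn
    have h4 := h2 h3
    rw [Q8_per M hp, Real.dist_eq] at h4
    exact lt_irrefl _ h4
  · obtain ⟨ρ, χ, R, hT⟩ := exists_tubeQ M hN
    obtain ⟨-, δ, hδ, h6⟩ := hm
    refine ⟨min δ (5 * ρ), lt_min hδ (by linarith [hT.ρ_pos]), fun x hx => ?_⟩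
    have hU : x ∈ M.U := hT.tube x (hx.trans_le (min_le_right _ _))
    unfold Q8_g
    congr 1
    refine Finset.prod_congr rfl fun P hP => ?_
    have hP' := (Q8_mem M).1 hP
    have h7 : Metric.infDist (P x) M.N < δ := by
      rw [infDist_inv M hP']
      exact hx.trans_le (min_le_left _ _)
    have h8 : (1 : ℝ) * g0 (P x) = 1 * g0 (M.r (P x)) := h6 (P x) h7 0
    rw [one_mul, one_mul, r_inv M hP' hU] at h8
    rw [h8]

/-- `g x = 1 - ∏ P ∈ G, (1 - g0 (P x))` for a bump `g0` of the class `S0` -/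
theorem exists_SG (M : Mfd m) (S0 : EscK.SCl (bas m)) (h0 : ∀ G, S0.mem G ↔ MCl M.toSub G) :
    ∃ S : EscT.SG (bas m), (∀ P, P ∈ S.G ↔ P ∈ M.G) ∧ ∀ G, S.mem G ↔ MQ M G := by
  refine ⟨EscT.SG.mk M.finite.toFinset ?_ ?_ (MQ M) ?_ ?_ ?_ ?_ ?_, fun P => Q8_mem M,
    fun G => Iff.rfl⟩
  · exact (Q8_mem M).2 M.G.one_mem
  · intro P hP v hv
    obtain ⟨n, rfl⟩ := Q8_span.1 hv
    exact Q8_span.2 (M.lattice P ((Q8_mem M).1 hP) n)
  · intro G hG
    exact hG.1.1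
  · exact ⟨(h0 _).1 S0.zero, fun _ _ _ _ => rfl⟩
  · intro G G' h h'
    refine ⟨(h0 _).1 (S0.add _ _ ((h0 _).2 h.1) ((h0 _).2 h'.1)), fun P hP x t => ?_⟩
    show G (P x) t + G' (P x) t = G x t + G' x t
    rw [h.2 P hP, h'.2 P hP]
  · intro c G h
    refine ⟨(h0 _).1 (S0.smul c _ ((h0 _).2 h.1)), fun P hP x t => ?_⟩
    show c * G (P x) t = c * G x t
    rw [h.2 P hP]
  · obtain ⟨r0, hr0, hb⟩ := S0.bump
    refine ⟨r0, hr0, fun r hr hrr c => ?_⟩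
    obtain ⟨g0, hs, hp, h01, h1, h2, h3⟩ := hb r hr hrr c
    have hp' : ∀ (n : Fin m → ℤ) x, g0 (x + vz n) = g0 x := fun n x => per_vz hp n x
    have hm := (h0 _).1 (h3 (fun _ => 1) contDiff_const fun _ => rfl)
    obtain ⟨δ, hδ, hδ'⟩ := Q8_near M S0 h0 hs hp' hm
    refine ⟨Q8_g M g0, Q8_smooth M hs, fun i x => ?_, fun x => Q8_01 M h01 x, fun x hx => ?_,
      fun x hx => ?_, fun θ hθ hθp => ⟨⟨⟨?_, ?_, ?_⟩, δ, hδ, ?_⟩, ?_⟩⟩
    · rw [bas_apply]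
      exact Q8_per M hp' _ x
    · obtain ⟨P, hP, v, hv, hle⟩ := hx
      exact Q8_one M hP (h1 (P x) ⟨v, hv, hle⟩)
    · exact Q8_zero M fun P hP => h2 (P x) fun v hv => hx P hP v hv
    · exact (hθ.comp contDiff_snd).mul ((Q8_smooth M hs).comp contDiff_fst)
    · intro i x t
      show θ t * Q8_g M g0 (x + bas m i) = θ t * Q8_g M g0 x
      rw [bas_apply, Q8_per M hp']
    · intro x t
      show θ (t + 1) * Q8_g M g0 x = θ t * Q8_g M g0 x
      rw [hθp]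
    · intro x hx t
      show θ t * Q8_g M g0 x = θ t * Q8_g M g0 (M.r x)
      rw [hδ' x hx]
    · intro P hP x t
      show θ t * Q8_g M g0 (P x) = θ t * Q8_g M g0 x
      rw [Q8_inv M g0 hP]

end EscQ
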