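import Pool.Agent.EscQ.PDefs
import Pool.Agent.EscM.N1

/-!
Module Q9 of project EscQ (MP_6acca1_an): the images of a moving closed curve under the nontrivial elements of the
finite group stay at a positive distance from the curve.
-/

noncomputable section

namespace EscQ

open Filter Topology Set Esc EscG EscF.T EscM
open scoped ContDiff UniformConvergence

variable {m : ℕ} {k : ℕ∞}

/-- the lattice is closed -/
theorem Q9_closed : IsClosed (Set.range (vz : (Fin m → ℤ) → Vec m)) := by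
  have h : Set.range (vz : (Fin m → ℤ) → Vec m) =
      ⋂ i : Fin m, {x : Vec m | x i ∈ Set.range ((↑) : ℤ → ℝ)} := by
    ext x
    simp only [mem_range, mem_iInter, mem_ofPred_eq]
    constructor
    · rintro ⟨n, rfl⟩ i
      exact ⟨n i, by simp [vz]⟩
    · intro hx
      choose n hn using hx
      refine ⟨n, ?_⟩
      ext i
      simp [vz, hn]
  rw [h]
  exact isClosed_iInter fun i =>
    Int.isClosedEmbedding_coe_real.isClosed_range.preimage (by fun_prop)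

theorem Q9_time {c : ℝ → ℝ → Vec m} (h : ∀ σ t, c σ (t + 1) = c σ t) (l : ℤ) (σ t : ℝ) :
    c σ (t + l) = c σ t := by
  have hp : Function.Periodic (c σ) 1 := fun t => h σ t
  have h1 := hp.int_mul l t
  rwa [mul_one] at h1

theorem Q9_space {c : ℝ → Vec m} {len : ℝ} (hl : 0 < len) {i : Fin m}
    (h : ∀ σ, c (σ + len) = c σ + vz (Pi.single i 1)) (l : ℤ) (σ : ℝ) :
    c (σ + l * len) = c σ + vz (Pi.single i l) := by
  have hp : Function.Periodic (fun s => c s - (s / len) • (vz (Pi.single i 1) : Vec m)) len := by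
    intro s
    simp only
    rw [h s, add_div, div_self hl.ne', add_smul, one_smul]
    abel
  have h1 := hp.int_mul l σ
  have h2 : (vz (Pi.single i l) : Vec m) = (l : ℝ) • vz (Pi.single i 1) := by
    ext j
    by_cases hj : j = i
    · subst hj
      simp [vz]
    · simp [vz, hj]
  have h3 : (σ + l * len) / len = σ / len + l := by
    rw [add_div, mul_div_assoc, div_self hl.ne', mul_one]
  rw [h3, add_smul, sub_eq_iff_eq_add] at h1
  rw [h1, h2]
  abel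

/-- the statement for one element of the group -/
theorem Q9_one (M : Mfd m) {F : Vec m → Vec m → ℝ → ℝ} {B : Vec m → ℝ → ℝ} {i : Fin m} {len : ℝ}
    {c : ℝ → ℝ → Vec m} (hc : EscMT.IsCalibratedT M.toSub F B i len c) {P : Vec m ≃ₗᵢ[ℝ] Vec m}
    (hP : P ∈ M.G) (hd : ∀ (s s' t : ℝ) (n : Fin m → ℤ), P (c s t) + vz n ≠ c s' t) :
    ∃ δ0 : ℝ, 0 < δ0 ∧ ∀ (s t : ℝ) (n : Fin m → ℤ),
      δ0 ≤ Metric.infDist (P (c s t) + vz n) (Set.range fun s' => c s' t) := by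
  obtain ⟨Λ, hΛ⟩ : ∃ Λ : Set (Vec m), Λ = Set.range (vz : (Fin m → ℤ) → Vec m) := ⟨_, rfl⟩
  have hΛne : Λ.Nonempty := by
    rw [hΛ]
    exact ⟨vz 0, 0, rfl⟩
  have hΛc : IsClosed Λ := by
    rw [hΛ]
    exact Q9_closed
  obtain ⟨g, hgd⟩ : ∃ g : ℝ × ℝ × ℝ → ℝ, ∀ q,
      g q = Metric.infDist (c q.2.1 q.2.2 - P (c q.1 q.2.2)) Λ := ⟨_, fun _ => rfl⟩
  have hcc : Continuous (fun p : ℝ × ℝ => c p.1 p.2) := hc.curve.continuous
  have hg : Continuous g := by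
    rw [show g = fun q => Metric.infDist (c q.2.1 q.2.2 - P (c q.1 q.2.2)) Λ from funext hgd]
    refine (Metric.continuous_infDist_pt Λ).comp ?_
    refine Continuous.sub ?_ (P.continuous.comp ?_)
    · exact hcc.comp (by fun_prop : Continuous fun q : ℝ × ℝ × ℝ => (q.2.1, q.2.2))
    · exact hcc.comp (by fun_prop : Continuous fun q : ℝ × ℝ × ℝ => (q.1, q.2.2))
  have hpos : ∀ q, 0 < g q := by
    intro q
    rw [hgd]
    refine (hΛc.notMem_iff_infDist_pos hΛne).mp ?_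
    rw [hΛ]
    rintro ⟨n, hn⟩
    exact hd q.1 q.2.1 q.2.2 n (by rw [hn]; abel)
  have hK : IsCompact (Icc (0 : ℝ) len ×ˢ (Icc (0 : ℝ) len ×ˢ Icc (0 : ℝ) 1)) :=
    isCompact_Icc.prod (isCompact_Icc.prod isCompact_Icc)
  have hl : 0 < len := hc.len_pos
  have hKne : (Icc (0 : ℝ) len ×ˢ (Icc (0 : ℝ) len ×ˢ Icc (0 : ℝ) 1)).Nonempty :=
    ⟨(0, 0, 0), ⟨⟨le_rfl, hl.le⟩, ⟨le_rfl, hl.le⟩, le_rfl, zero_le_one⟩⟩
  obtain ⟨q0, -, hmin⟩ := hK.exists_isMinOn hKne hg.continuousOn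
  refine ⟨g q0, hpos q0, fun s t n => ?_⟩
  refine (Metric.le_infDist (Set.range_nonempty _)).mpr ?_
  rintro _ ⟨s', rfl⟩
  have hfl : ∀ x : ℝ, x - ⌊x / len⌋ * len ∈ Icc (0 : ℝ) len := by
    intro x
    have h1 := Int.floor_le (x / len)
    have h2 := Int.lt_floor_add_one (x / len)
    rw [le_div_iff₀ hl] at h1
    rw [div_lt_iff₀ hl] at h2
    constructor <;> linarith
  have ht : Int.fract t ∈ Icc (0 : ℝ) 1 := ⟨Int.fract_nonneg t, (Int.fract_lt_one t).le⟩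
  have hred : ∀ x : ℝ, c x t = c (x - ⌊x / len⌋ * len) (Int.fract t) +
      vz (Pi.single i ⌊x / len⌋) := by
    intro x
    have h1 := Q9_space (c := fun σ => c σ t) hl (fun σ => hc.closed σ t) ⌊x / len⌋
      (x - ⌊x / len⌋ * len)
    simp only [sub_add_cancel] at h1
    have h2 := Q9_time hc.curve_per ⌊t⌋ (x - ⌊x / len⌋ * len) (Int.fract t)
    rw [Int.fract_add_floor] at h2
    rw [h1, h2]
  obtain ⟨n', hn'⟩ := M.lattice P hP (Pi.single i ⌊s / len⌋)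
  have hle := hmin (show ((s - ⌊s / len⌋ * len, s' - ⌊s' / len⌋ * len, Int.fract t) : ℝ × ℝ × ℝ) ∈
    Icc (0 : ℝ) len ×ˢ (Icc (0 : ℝ) len ×ˢ Icc (0 : ℝ) 1) from ⟨hfl s, hfl s', ht⟩)
  simp only [mem_ofPred_eq] at hle
  refine hle.trans ?_
  rw [hgd]
  simp only
  have hmem : (vz (n' + n + -(Pi.single i ⌊s' / len⌋)) : Vec m) ∈ Λ := by
    rw [hΛ]
    exact ⟨_, rfl⟩
  refine (Metric.infDist_le_dist_of_mem hmem).trans (le_of_eq ?_)
  rw [hred s, hred s', map_add, hn', vz_add', vz_add', vz_neg', dist_comm, dist_eq_norm,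
    dist_eq_norm]
  congr 1
  abel

theorem Q9_fin {α : Type*} {S : Set α} (hS : S.Finite) (Q : α → ℝ → Prop)
    (hQ : ∀ a x y, x ≤ y → Q a y → Q a x) (h : ∀ a ∈ S, ∃ x, 0 < x ∧ Q a x) :
    ∃ x, 0 < x ∧ ∀ a ∈ S, Q a x := by
  induction S, hS using Set.Finite.induction_on with
  | empty => exact ⟨1, one_pos, fun a ha => absurd ha (Set.notMem_empty a)⟩
  | insert _ _ ih =>
    obtain ⟨x, hx, h1⟩ := ih fun a ha => h a (Set.mem_insert_of_mem _ ha)
    obtain ⟨y, hy, h2⟩ := h _ (Set.mem_insert _ _)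
    refine ⟨min x y, lt_min hx hy, ?_⟩
    rintro b (rfl | hb)
    · exact hQ _ _ _ (min_le_right _ _) h2
    · exact hQ _ _ _ (min_le_left _ _) (h1 b hb)

theorem exists_sep (M : Mfd m) {F : Vec m → Vec m → ℝ → ℝ} {B : Vec m → ℝ → ℝ} {i : Fin m} {len : ℝ}
    {c : ℝ → ℝ → Vec m} (hc : EscMT.IsCalibratedT M.toSub F B i len c)
    (hd : ∀ P ∈ M.G, P ≠ 1 → ∀ (s s' t : ℝ) (n : Fin m → ℤ), P (c s t) + vz n ≠ c s' t) :
    ∃ δ0 : ℝ, 0 < δ0 ∧ ∀ P ∈ M.G, P ≠ 1 → ∀ (s t : ℝ) (n : Fin m → ℤ),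
      δ0 ≤ Metric.infDist (P (c s t) + vz n) (Set.range fun s' => c s' t) := by
  refine Q9_fin M.finite (fun P δ0 => P ≠ 1 → ∀ (s t : ℝ) (n : Fin m → ℤ),
      δ0 ≤ Metric.infDist (P (c s t) + vz n) (Set.range fun s' => c s' t)) ?_ ?_
  · intro P x y hxy h hne s t n
    exact hxy.trans (h hne s t n)
  · intro P hP
    by_cases hne : P = 1
    · exact ⟨1, one_pos, fun h => absurd hne h⟩
    · obtain ⟨δ, hδ, h⟩ := Q9_one M hc hP (hd P hP hne)
      exact ⟨δ, hδ, fun _ => h⟩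

end EscQ
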