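import Pool.Agent.EscMT.ODefs

/-!
Outer definitions of project EscQ: closed manifolds `M = N / Γ`, where `N ⊂ ℝᵐ` is a submanifold invariant under
`ℤᵐ` and `Γ` is generated by `ℤᵐ` and a finite group of linear isometries; the space `C^k(M × 𝕋)`.
-/

namespace EscQ

open Filter Topology Set EscF.T EscM
open scoped ContDiff UniformConvergence

/-- A closed manifold `M = N / Γ`. The quotient `N / ℤᵐ` is a closed submanifold of the torus `𝕋ᵐ`; `G` is a
finite group of linear isometries of `ℝᵐ` which preserve the lattice `ℤᵐ` and `N`; the group `Γ` generated by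
`ℤᵐ` and `G` acts freely on `N`. Every closed manifold with a finite normal covering which embeds in a torus is
of this form. -/
structure Mfd (m : ℕ) extends Sub m where
  G : Subgroup (Vec m ≃ₗᵢ[ℝ] Vec m)
  finite : (G : Set (Vec m ≃ₗᵢ[ℝ] Vec m)).Finite
  lattice : ∀ P ∈ G, ∀ n : Fin m → ℤ, ∃ n' : Fin m → ℤ, P (vz n) = vz n'
  presN : ∀ P ∈ G, ∀ x ∈ N, P x ∈ N
  presU : ∀ P ∈ G, ∀ x ∈ U, P x ∈ U
  free : ∀ P ∈ G, ∀ x ∈ N, ∀ n : Fin m → ℤ, P x + vz n = x → P = 1

variable {m : ℕ}

/-- The space `C^k(M × 𝕋)`, `k = ∞` allowed: the elements of `C^k(N/ℤᵐ × 𝕋)` which are invariant under `G`. -/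
structure Pot (M : Mfd m) (k : ℕ∞) extends EscM.Pot M.toSub k where
  inv : ∀ P ∈ M.G, ∀ x ∈ M.U, ∀ t, toFun (P x, t) = toFun (x, t)

/-- The `C^k` topology: uniform convergence of the derivatives of order `j ≤ k` on the sets `K × ℝ`,
`K ⊆ U` compact. -/
noncomputable instance (M : Mfd m) (k : ℕ∞) : TopologicalSpace (Pot M k) :=
  TopologicalSpace.induced Pot.toPot inferInstance

/-- Invariance under the group of `M`: the metrics `F x v t` and the Lagrangian `L` are defined on `M`, and the curves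
`c · t` are simple closed curves in `M` (disjoint from their images in `N`). -/
structure Descends (M : Mfd m) (F : Vec m → Vec m → ℝ → ℝ) (c : ℝ → ℝ → Vec m) (L : Lag m) : Prop where
  metric : ∀ P ∈ M.G, ∀ x ∈ M.N, ∀ v t, IsTangent M.toSub x v → F (P x) (P v) t = F x v t
  lag : ∀ P ∈ M.G, ∀ x ∈ M.N, ∀ v t, IsTangent M.toSub x v → L (P x, P v, t) = L (x, v, t)
  curve : ∀ P ∈ M.G, P ≠ 1 → ∀ (s s' t : ℝ) (n : Fin m → ℤ), P (c s t) + vz n ≠ c s' t

end EscQ
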