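import Pool.Agent.EscT.F7b
import Pool.Agent.EscT.F8
import Pool.Agent.EscT.H4
import Pool.Agent.EscMT.P12
import Pool.Agent.EscM.A15
import Pool.Agent.EscM.A14a
import Pool.Agent.EscQ.Q1
import Pool.Agent.EscQ.Q2
import Pool.Agent.EscQ.Q7
import Pool.Agent.EscQ.Q8
import Pool.Agent.EscQ.Q9

/-!
Project EscQ: final theorem. A closed manifold `M = N / Γ` with a finite covering in a flat torus, a time-periodic
family of continuous Finsler metrics with calibrated simple closed geodesics and a second direction in the covering,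
and a Lagrangian near `κ(t) F² / 2`: for a residual, hence dense, set of potentials in `C^k(M × 𝕋)` there is an orbit
that tends to infinity.
-/

set_option autoImplicit false

namespace EscQ

open Filter Topology Set Esc EscG EscF.T EscM
open scoped ContDiff UniformConvergence

variable {m : ℕ} {M : Mfd m} {k : ℕ∞} {κ : ℝ → ℝ} {F : Vec m → Vec m → ℝ → ℝ} {B : Vec m → ℝ → ℝ}
  {i : Fin m} {len : ℝ} {c : ℝ → ℝ → Vec m} {L : Lag m}

/-- the rooms are separated from their images -/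
theorem QFinal_PG {D : EscT.GT (Fin m) 1 (Vec m)} {p : GP} (hβ : D.β = bas m)
    (hZ : ∀ t, D.Z t = Set.range fun σ => c σ t) {δ0 : ℝ} (hp : 8 * p.ηc ≤ δ0)
    {G : Set (Vec m ≃ₗᵢ[ℝ] Vec m)}
    (hsep : ∀ P ∈ G, P ≠ 1 → ∀ (s t : ℝ) (n : Fin m → ℤ),
      δ0 ≤ Metric.infDist (P (c s t) + vz n) (Set.range fun s' => c s' t))
    (S : EscT.SG D.β) (hS : ∀ P, P ∈ S.G → P ∈ G) : EscT.PG D p S := by
  intro t P hP hP1 v hv x hx
  rw [hZ t] at hx ⊢
  obtain ⟨s, rfl⟩ := hx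
  have hv' : v ∈ Submodule.span ℤ (Set.range (bas m)) := by
    rw [← hβ]
    exact hv
  obtain ⟨n, rfl⟩ := EscM.mem_span_bas.1 hv'
  exact hp.trans (hsep P (hS P hP) hP1 s t n)

theorem result_Q (hk : 2 ≤ k) (hκ : EscMT.IsWeight κ) (hF : EscMT.IsFinslerT M.toSub F)
    (hc : EscMT.IsCalibratedT M.toSub F B i len c) (hs : HasSecondDirection M.toSub i (c 0 0))
    (hL : EscMT.IsNearT M.toSub κ F L) (hd : Descends M F c L) :
    {f : Pot M k | EscapesToInfinity M.toSub (fun q => L q + f.toFun (q.1, q.2.2))} ∈ residual (Pot M k) ∧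
      Dense {f : Pot M k | EscapesToInfinity M.toSub (fun q => L q + f.toFun (q.1, q.2.2))} := by
  have key : {f : Pot M k | EscapesToInfinity M.toSub (fun q => L q + f.toFun (q.1, q.2.2))} ∈
      residual (Pot M k) := by
    obtain ⟨ρ, χ, R, hT⟩ := exists_tubeQ M ⟨c 0 0, hc.mem 0 0⟩
    obtain ⟨δ0, hδ0, hsep⟩ := exists_sep M hc hd.curve
    obtain ⟨l, m', D, L', p, x0, hβ, hD, hl, hp, hx0, hpδ, hZ, hback⟩ :=
      EscMT.main_geoT (k := k) hk hT.toTubeD hκ hF hc hs hL δ0 hδ0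
    obtain ⟨S1, hS1⟩ := exists_SM hT.toTubeD
    obtain ⟨S0, hS0G, hS0⟩ := exists_SG M S1 hS1
    obtain ⟨S, hSG, hS⟩ : ∃ S : EscT.SG D.β, (∀ P, P ∈ S.G ↔ P ∈ M.G) ∧ ∀ G, S.mem G ↔ MQ M G := by
      rw [hβ]
      exact ⟨S0, hS0G, hS0⟩
    have hPG : EscT.PG D p S := QFinal_PG hβ hZ hpδ (G := {P | P ∈ M.G})
      (fun P hP => hsep P hP) S fun P hP => (hSG P).1 hP
    have hp1 : ∀ f : Vec m → ℝ → ℝ, Pt (bas m) f → Pt D.β f := fun f hf => by
      rw [hβ]
      exact hf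
    have hres := residual_Q (k := k) hk hT (fun q f => EscT.Stage D p (lf l f) q)
      (fun f => EscT.EscapesFrom l f x0 (EscT.Near D p)) ?_ ?_ ?_
    · filter_upwards [hres] with f hf
      obtain ⟨h, hv, he⟩ := hf
      exact hback f.toPot ⟨h.1, h.2.1⟩ hv he
    · intro q f hf hSt
      obtain ⟨r, hr, h⟩ := EscT.stage_open hD hp hl (hp1 f hf) hSt
      exact ⟨r, hr, fun f' hf' hd => h f' (hp1 f' hf') hd⟩
    · intro a
      obtain ⟨q0, h⟩ := EscT.stage_dense S hD hp hPG hl (a : ℝ) (Nat.cast_nonneg a)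
      refine ⟨q0, ?_⟩
      rw [← hβ]
      intro N q hq f hf hg ε hε
      obtain ⟨G, h1, h2, h3⟩ := h N q hq f hf hg ε hε
      exact ⟨G, (hS G).1 h1, h2, h3⟩
    · intro a
      obtain ⟨q0, h⟩ := EscT.escapes_of_stages hD hp hl (a : ℝ)
      exact ⟨q0, fun q1 hq1 f hf hg hst => h q1 hq1 f (hp1 f hf) hg hst x0 hx0⟩
  have := baireQ M k
  exact ⟨key, dense_of_mem_residual key⟩

end EscQ
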